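import Pool.Agent.H77.TI.FinB

/-!
MP_e29fc4_al, Q1 (five soluble subgroups of a finite group with trivial soluble radical have
conjugates with trivial intersection) is equivalent to the following statement on almost simple
groups: if `A` is a finite group with a normal nonabelian simple subgroup `T` with trivial
centraliser and `K 0, ..., K 4` are soluble subgroups of `A`, then `A` has at least five regular
orbits on `A/K 0 × ... × A/K 4`.
-/

namespace Pool.Agent.Results.MP_e29fc4_al.AlmostSimpleCriterion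

open Pool.Agent.H77.TI

theorem regular_iff {G : Type*} [Group G] (H : Fin 5 → Subgroup G) :
    Regular H ↔ ∃ x : Fin 5 → G, (⨅ i, (H i).map (MulAut.conj (x i)⁻¹).toMonoidHom) = ⊥ := by
  have key : ∀ (x g : G) (K : Subgroup G),
      g ∈ K.map (MulAut.conj x⁻¹).toMonoidHom ↔ x * g * x⁻¹ ∈ K := by
    intro x g K
    constructor
    · rintro ⟨h, hh, rfl⟩
      simpa [MulAut.conj_apply, mul_assoc] using hh
    · intro h
      exact ⟨x * g * x⁻¹, h, by simp [MulAut.conj_apply, mul_assoc]⟩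
  constructor
  · rintro ⟨x, hx⟩
    refine ⟨x, ?_⟩
    rw [eq_bot_iff]
    intro g hg
    rw [Subgroup.mem_iInf] at hg
    rw [Subgroup.mem_bot]
    exact hx g fun i => (key _ _ _).1 (hg i)
  · rintro ⟨x, hx⟩
    refine ⟨x, fun g hg => ?_⟩
    have : g ∈ ⨅ i, (H i).map (MulAut.conj (x i)⁻¹).toMonoidHom := by
      rw [Subgroup.mem_iInf]
      exact fun i => (key _ _ _).2 (hg i)
    rw [hx, Subgroup.mem_bot] at this
    exact this

theorem coset_iff {A : Type*} [Group A] (K : Subgroup A) (a b n : A) :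
    n • ((a⁻¹ : A) : A ⧸ K) = ((b⁻¹ : A) : A ⧸ K) ↔ b * n * a⁻¹ ∈ K := by
  rw [eq_comm, MulAction.Quotient.smul_coe, QuotientGroup.eq, smul_eq_mul, inv_inv, mul_assoc]

theorem five_iff {A : Type*} [Group A] (K : Fin 5 → Subgroup A) :
    (∃ τ : Fin 5 → Fin 5 → A, ∀ c c' n, (∀ i, τ c' i * n * (τ c i)⁻¹ ∈ K i) →
        c = c' ∧ n = 1) ↔
      ∃ ω : Fin 5 → (∀ i, A ⧸ K i), (∀ c, MulAction.stabilizer A (ω c) = ⊥) ∧
        ∀ c c', c ≠ c' → ω c' ∉ MulAction.orbit A (ω c) := by
  constructor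
  · rintro ⟨τ, hτ⟩
    refine ⟨fun c i => (((τ c i)⁻¹ : A) : A ⧸ K i), ?_, ?_⟩
    · intro c
      rw [eq_bot_iff]
      intro n hn
      rw [MulAction.mem_stabilizer_iff] at hn
      rw [Subgroup.mem_bot]
      exact (hτ c c n fun i => (coset_iff (K i) _ _ n).1 (congrFun hn i)).2
    · rintro c c' hcc ⟨n, hn⟩
      exact hcc (hτ c c' n fun i => (coset_iff (K i) _ _ n).1 (congrFun hn i)).1
  · rintro ⟨ω, h1, h2⟩
    have hex : ∀ c i, ∃ t : A, ((t⁻¹ : A) : A ⧸ K i) = ω c i := by
      intro c i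
      obtain ⟨t, ht⟩ := QuotientGroup.mk_surjective (ω c i)
      exact ⟨t⁻¹, by rw [inv_inv]; exact ht⟩
    choose τ hτ using hex
    refine ⟨τ, fun c c' n h => ?_⟩
    have h3 : n • ω c = ω c' := by
      funext i
      have := (coset_iff (K i) (τ c i) (τ c' i) n).2 (h i)
      rw [hτ, hτ] at this
      exact this
    have h4 : c = c' := by
      by_contra hne
      exact h2 c c' hne ⟨n, h3⟩
    subst h4
    refine ⟨rfl, ?_⟩
    have : n ∈ MulAction.stabilizer A (ω c) := h3
    rw [h1 c, Subgroup.mem_bot] at this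
    exact this

theorem result :
    (∀ (G : Type) [Group G] [Finite G], TrivRad G → ∀ H : Fin 5 → Subgroup G,
      (∀ i, Group.IsSolvable (H i)) →
        ∃ x : Fin 5 → G, (⨅ i, (H i).map (MulAut.conj (x i)⁻¹).toMonoidHom) = ⊥) ↔
    (∀ (A : Type) [Group A] [Finite A] (T : Subgroup A), T.Normal → IsSimpleGroup T →
      (¬ ∀ a b : T, a * b = b * a) → Subgroup.centralizer (T : Set A) = ⊥ →
      ∀ K : Fin 5 → Subgroup A, (∀ i, Group.IsSolvable (K i)) →
        ∃ ω : Fin 5 → (∀ i, A ⧸ K i), (∀ c, MulAction.stabilizer A (ω c) = ⊥) ∧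
          ∀ c c', c ≠ c' → ω c' ∉ MulAction.orbit A (ω c)) := by
  constructor
  · intro h A _ _ T hT hs hc hz K hK
    rw [← five_iff]
    refine finB.1 ?_ A T hT hs hc hz K hK
    intro G _ _ hR H hH
    exact (regular_iff H).2 (h G hR H hH)
  · intro h G _ _ hR H hH
    rw [← regular_iff]
    refine finB.2 ?_ G hR H hH
    intro A _ _ T hT hs hc hz K hK
    rw [five_iff]
    exact h A T hT hs hc hz K hK

end Pool.Agent.Results.MP_e29fc4_al.AlmostSimpleCriterion
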