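import Pool.Agent.H77.TI.FinA

/-!
MP_e29fc4_al, Q1: intersections of conjugates of soluble subgroups `H 0, ..., H k` in a finite
group `G` with trivial soluble radical. If for every component `T` of `G` (subnormal nonabelian
simple subgroup) there is `i₀` such that the groups of automorphisms of `T` induced by the
`H i`, `i ≠ i₀`, have derived lengths `≤ d i` with `∑_{i ≠ i₀} 2 ^ (- d i) ≥ 1`, then there are
conjugates of the `H i` with trivial intersection. For `k = 4` this settles Q1 if on every
component four of the five subgroups induce metabelian groups of automorphisms, in particular if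
four of the five subgroups are metabelian.
-/

namespace Pool.Agent.Results.MP_e29fc4_al.LocallyMetabelian

open Pool.Agent.H77.TI

theorem result {G : Type*} [Group G] [Finite G] (hR : TrivRad G) (k : ℕ)
    (H : Fin (k + 1) → Subgroup G) (hsol : ∀ i, Group.IsSolvable (H i))
    (hloc : ∀ T : Subgroup G, IsComp T → ∃ (i₀ : Fin (k + 1)) (d : Fin (k + 1) → ℕ),
      (∀ i, i ≠ i₀ → derivedSeries (autSub (H i) T) (d i) = ⊥) ∧
        (1 : ℚ) ≤ ∑ i ∈ Finset.univ.erase i₀, (1 / 2 : ℚ) ^ (d i)) :
    ∃ x : Fin (k + 1) → G, (⨅ i, (H i).map (MulAut.conj (x i)⁻¹).toMonoidHom) = ⊥ := by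
  obtain ⟨x, hx⟩ := finA hR k H hsol hloc
  refine ⟨x, ?_⟩
  rw [eq_bot_iff]
  intro g hg
  rw [Subgroup.mem_iInf] at hg
  rw [Subgroup.mem_bot]
  apply hx
  intro i
  obtain ⟨h, hh, rfl⟩ := hg i
  simpa [MulAut.conj_apply, mul_assoc] using hh

end Pool.Agent.Results.MP_e29fc4_al.LocallyMetabelian
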