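import Pool.Agent.H77.TS.FinD

/-!
MP_e29fc4_al, Q1 for all finite groups whose components are alternating or acted on with small derived length: `G` is a
finite group with trivial soluble radical and `H 0, ..., H 4` are soluble subgroups such that for every component `T` of
`G` (subnormal nonabelian simple subgroup) one of the following holds.

(a) For some `j` the group of automorphisms of `T` which is generated by the inner automorphisms and the automorphisms
induced by `N_{H j}(T)` is isomorphic to the symmetric or the alternating group of some degree `n ≥ 5`.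

(b) There are `i₀` and numbers `d i` such that for `i ≠ i₀` the group of automorphisms of `T` induced by `N_{H i}(T)` has
derived length at most `d i`, and `∑_{i ≠ i₀} 2 ^ (- d i) ≥ 1`.

Then the five subgroups have conjugates with trivial intersection.
-/

namespace Pool.Agent.Results.MP_e29fc4_al.MixedComponents

open Pool.Agent.H77.TI

theorem result {G : Type*} [Group G] [Finite G] (hR : TrivRad G)
    (H : Fin 5 → Subgroup G) (hsol : ∀ i, Group.IsSolvable (H i))
    (hcomp : ∀ T : Subgroup G, IsComp T →
      (∃ (j : Fin 5) (n : ℕ), 5 ≤ n ∧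
        (Nonempty ((autSub (H j) T ⊔ inn T : Subgroup (MulAut T)) ≃* Equiv.Perm (Fin n)) ∨
          Nonempty ((autSub (H j) T ⊔ inn T : Subgroup (MulAut T)) ≃* alternatingGroup (Fin n)))) ∨
      (∃ (i₀ : Fin 5) (d : Fin 5 → ℕ),
        (∀ i, i ≠ i₀ → derivedSeries (autSub (H i) T) (d i) = ⊥) ∧
          (1 : ℚ) ≤ ∑ i ∈ Finset.univ.erase i₀, (1 / 2 : ℚ) ^ (d i))) :
    ∃ x : Fin 5 → G, (⨅ i, (H i).map (MulAut.conj (x i)⁻¹).toMonoidHom) = ⊥ := by
  obtain ⟨x, hx⟩ := Pool.Agent.H77.TS.finD hR H hsol hcomp
  refine ⟨x, ?_⟩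
  rw [eq_bot_iff]
  intro g hg
  rw [Subgroup.mem_iInf] at hg
  rw [Subgroup.mem_bot]
  apply hx
  intro i
  obtain ⟨h, hh, rfl⟩ := hg i
  simpa [MulAut.conj_apply, mul_assoc] using hh

end Pool.Agent.Results.MP_e29fc4_al.MixedComponents
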